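import Pool.Agent.R98.Upper
import Pool.Agent.R98.Moments
import Pool.Agent.R98.Gap

/-!
# Packing the multiples, up to `n`, of the primes `p ≤ √n`

The least packing length is asymptotic to `(4 / 3) n ^ (3 / 2) / ln n`.
-/

set_option autoImplicit false

open Finset Filter Topology

namespace Pool.Agent.Results.MP_fdcff6_co.PrimeAsymptotic

open Pool.Agent.R98

/-- `A_d = {d, 2d, ..., ⌊n / d⌋ d}`, the multiples of `d` in `{1, ..., n}` -/
def A (n d : ℕ) : Finset ℤ := (Icc 1 (n / d)).image (fun v : ℕ => (v : ℤ) * d)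

/-- The sets `A_d`, `d ∈ D`, pack into `{1, ..., m}`: there are integer translates `s_d + A_d`
inside `{1, ..., m}` which are pairwise disjoint. -/
def PacksInto (n : ℕ) (D : Finset ℕ) (m : ℕ) : Prop :=
  ∃ s : ℕ → ℤ, (∀ d ∈ D, ∀ a ∈ A n d, 1 ≤ s d + a ∧ s d + a ≤ m) ∧
    ∀ d ∈ D, ∀ e ∈ D, d ≠ e → ∀ a ∈ A n d, ∀ b ∈ A n e, s d + a ≠ s e + b

/-- `m_D(n)`: the least `m` such that the sets `A_d`, `d ∈ D`, pack into `{1, ..., m}`. -/
noncomputable def m (n : ℕ) (D : Finset ℕ) : ℕ := sInf {k : ℕ | PacksInto n D k}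

/-- the primes `p ≤ √n` -/
def P (n : ℕ) : Finset ℕ := (Icc 1 n).filter (fun p => p.Prime ∧ p ^ 2 ≤ n)

lemma P_eq (n : ℕ) : P n = primesTo (Nat.sqrt n) := by
  ext p
  simp only [P, primesTo, Finset.mem_filter, Finset.mem_Icc]
  constructor
  · rintro ⟨⟨h1, h2⟩, h3, h4⟩
    exact ⟨⟨h1, Nat.le_sqrt'.2 h4⟩, h3⟩
  · rintro ⟨⟨h1, h2⟩, h3⟩
    exact ⟨⟨h1, h2.trans (Nat.sqrt_le_self n)⟩, h3, Nat.le_sqrt'.1 h2⟩

lemma packsInto_iff (n : ℕ) (D : Finset ℕ) (k : ℕ) :
    PacksInto n D k ↔ Packs D (fun d => n / d) k := by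
  unfold PacksInto Packs A
  simp only [Finset.mem_image, forall_exists_index, and_imp, forall_apply_eq_imp_iff₂]

lemma exists_packsInto (n : ℕ) : ∃ k, PacksInto n (P n) k := by
  refine ⟨(P n).card * n, (packsInto_iff _ _ _).2 (packs_trivial ?_ ?_)⟩
  · intro p hp; exact (Finset.mem_filter.1 hp).2.1.pos
  · intro p hp
    exact Nat.div_mul_le_self n p

lemma packsInto_m (n : ℕ) : PacksInto n (P n) (m n (P n)) :=
  Nat.sInf_mem (exists_packsInto n)

/-- the lower bound -/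
lemma lower (n : ℕ) (hn : 4 ≤ n) :
    ∑ p ∈ primesTo (Nat.sqrt n), ((n : ℤ) - 2 * (Nat.sqrt n : ℤ) - (p : ℤ) ^ 2) - (n : ℤ)
      ≤ m n (P n) := by
  obtain ⟨s, h1, h2⟩ := (packsInto_iff _ _ _).1 (packsInto_m n)
  set x := Nat.sqrt n with hx
  have hx2 : 2 ≤ x := by rw [hx, Nat.le_sqrt']; omega
  have hxn : x ^ 2 ≤ n := Nat.sqrt_le' n
  have hQP : ∀ p ∈ P n, p.Prime ∧ p ≤ x := by
    intro p hp
    rw [P_eq, primesTo, Finset.mem_filter, Finset.mem_Icc] at hp
    exact ⟨hp.2, hp.1.2⟩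
  have hdivpos : ∀ p ∈ P n, 1 ≤ n / p := by
    intro p hp
    obtain ⟨h3, h4⟩ := hQP p hp
    rw [Nat.le_div_iff_mul_le h3.pos]
    nlinarith
  have hspan : ∀ p ∈ P n, (n : ℤ) - 2 * x ≤ (((n / p : ℕ) : ℤ) - 1) * p := by
    intro p hp
    obtain ⟨h3, h4⟩ := hQP p hp
    have h5 : n < p * (n / p + 1) := Nat.lt_mul_div_succ _ h3.pos
    have h6 : (n : ℤ) < p * (((n / p : ℕ) : ℤ) + 1) := by exact_mod_cast h5
    have h7 : (p : ℤ) ≤ x := by exact_mod_cast h4
    nlinarith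
  have hQne : (P n).Nonempty := ⟨2, by
    rw [P, Finset.mem_filter, Finset.mem_Icc]
    exact ⟨⟨by omega, by omega⟩, Nat.prime_two, by omega⟩⟩
  -- starting points
  set y : ℕ → ℤ := fun p => s p + p with hy
  have hdis : ∀ p ∈ P n, ∀ q ∈ P n, p ≠ q → ∀ u < n / p, ∀ v < n / q,
      y p + (u : ℤ) * p ≠ y q + (v : ℤ) * q := by
    intro p hp q hq hpq u hu v hv heq
    apply h2 p hp q hq hpq (u + 1) (Finset.mem_Icc.2 ⟨Nat.succ_pos u, hu⟩)
      (v + 1) (Finset.mem_Icc.2 ⟨Nat.succ_pos v, hv⟩)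
    rw [hy] at heq
    push_cast
    simp only at heq
    linarith
  have hinj : Set.InjOn y ((P n : Finset ℕ) : Set ℕ) := by
    intro p hp q hq hpq
    by_contra hne
    apply hdis p hp q hq hne 0 (hdivpos p hp) 0 (hdivpos q hq)
    simpa using hpq
  obtain ⟨a, ha, b, hb, hab⟩ := chain_length (P n) hQne y (fun p => (n : ℤ) - 2 * x) hinj
    (n : ℤ) (by
      intro p hp
      have : (0 : ℤ) ≤ x := by positivity
      linarith) (by
      intro p hp q hq hpq
      have hp1 := hQP p hp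
      have hq1 := hQP q hq
      have hne : p ≠ q := by rintro rfl; exact absurd hpq (lt_irrefl _)
      have h3 := hspan p hp
      have h4 := hspan q hq
      rcases crt_gap ((Nat.coprime_primes hp1.1 hq1.1).2 hne) hp1.1.pos hq1.1.pos (y p) (y q) hpq.le
        (n / p) (n / q) (hdis p hp q hq hne) with h | h
      · linarith
      · linarith)
  have hy1 : 1 ≤ y a := by
    have := (h1 a ha 1 (Finset.mem_Icc.2 ⟨le_rfl, hdivpos a ha⟩)).1
    rw [hy]
    push_cast at this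
    simp only
    linarith
  have hy2 : y b ≤ m n (P n) := by
    have := (h1 b hb 1 (Finset.mem_Icc.2 ⟨le_rfl, hdivpos b hb⟩)).2
    rw [hy]
    push_cast at this
    simp only
    linarith
  rw [← P_eq]
  linarith

lemma upper_n {T : ℕ} (hT : 2 ≤ T) : ∃ C n₀ : ℕ, ∀ n, n₀ ≤ n →
    (m n (P n) : ℝ) ≤ ∑ b ∈ range T, (blk T b (Nat.sqrt n)).card *
      (n - ((b * Nat.sqrt n / T : ℕ) : ℝ) ^ 2
      + 2 * ((1 * Nat.sqrt n / (T * T) : ℕ) : ℝ) * ((b * Nat.sqrt n / T : ℕ) : ℝ)) + C * (n : ℝ) := by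
  obtain ⟨C, x₀, hC⟩ := upper hT
  refine ⟨C, x₀ ^ 2, fun n hn => ?_⟩
  set x := Nat.sqrt n with hx
  have hx₀ : x₀ ≤ x := by rw [hx, Nat.le_sqrt']; exact hn
  have hT0 : 0 < T := by omega
  have hxn : x ^ 2 ≤ n := Nat.sqrt_le' n
  have hXx : ∀ b < T, b * x / T ≤ x := by
    intro b hb
    calc b * x / T ≤ T * x / T := Nat.div_le_div_right (Nat.mul_le_mul_right _ (by omega))
      _ = x := Nat.mul_div_cancel_left _ hT0
  have hLX : ∀ b < T, (b * x / T) ^ 2 ≤ n := by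
    intro b hb
    exact (Nat.pow_le_pow_left (hXx b hb) 2).trans hxn
  have h1 := hC x hx₀ (fun d => n / d) (fun _ => n) n (by
    intro b hb p hp
    exact Nat.div_mul_le_self n p) (by
    intro b hb
    exact le_rfl) (by
    intro b hb hb1
    have h2 := hXx b hb
    have h3 : T * (b * x / T) ≤ (T - 1) * x := by
      calc T * (b * x / T) ≤ b * x := Nat.mul_div_le _ _
        _ ≤ (T - 1) * x := Nat.mul_le_mul_right _ (by omega)
    calc (T + 1) * (b * x / T) ^ 2 = T * (b * x / T) * (b * x / T) + (b * x / T) ^ 2 := by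
          ring
      _ ≤ (T - 1) * x * x + x ^ 2 := by
          apply Nat.add_le_add
          · exact Nat.mul_le_mul h3 h2
          · exact Nat.pow_le_pow_left h2 2
      _ = (T - 1 + 1) * x ^ 2 := by ring
      _ = T * x ^ 2 := by rw [Nat.sub_add_cancel (by omega)]
      _ ≤ T * n := Nat.mul_le_mul_left _ hxn)
  have h1' : Packs (P n) (fun d => n / d) (∑ b ∈ range T, (blk T b x).card *
      shift T x (fun _ => n) b + C * n) := by rw [P_eq]; exact h1
  have h2 : m n (P n) ≤ ∑ b ∈ range T, (blk T b x).card * shift T x (fun _ => n) b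
      + C * n := Nat.sInf_le ((packsInto_iff _ _ _).2 h1')
  have h3 : (m n (P n) : ℝ) ≤ ∑ b ∈ range T, ((blk T b x).card : ℝ) *
      (shift T x (fun _ => n) b : ℝ) + C * n := by exact_mod_cast h2
  refine h3.trans ?_
  have h4 : ∑ b ∈ range T, ((blk T b x).card : ℝ) * (shift T x (fun _ => n) b : ℝ)
      ≤ ∑ b ∈ range T, (blk T b x).card * (n - ((b * x / T : ℕ) : ℝ) ^ 2
      + 2 * ((1 * x / (T * T) : ℕ) : ℝ) * ((b * x / T : ℕ) : ℝ)) := by
    apply Finset.sum_le_sum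
    intro b hb
    rw [Finset.mem_range] at hb
    apply mul_le_mul_of_nonneg_left _ (by positivity)
    exact shift_le (L := fun _ => n) (hLX b hb)
  linarith

/-! ### comparison of `n` and `⌊√n⌋` -/

lemma tendsto_sqrt : Tendsto Nat.sqrt atTop atTop := by
  apply tendsto_atTop.2
  intro a
  filter_upwards [eventually_ge_atTop (a ^ 2)] with n hn
  rw [Nat.le_sqrt']
  exact hn

lemma ratio_sq : Tendsto (fun n : ℕ => (n : ℝ) / (Nat.sqrt n : ℝ) ^ 2) atTop (𝓝 1) := by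
  have h1 : Tendsto (fun n : ℕ => 1 + 2 * (1 / (Nat.sqrt n : ℝ))) atTop (𝓝 (1 + 2 * 0)) :=
    ((tendsto_one_div_atTop_nhds_zero_nat.comp tendsto_sqrt).const_mul 2).const_add 1
  rw [mul_zero, add_zero] at h1
  refine tendsto_of_tendsto_of_tendsto_of_le_of_le' tendsto_const_nhds h1 ?_ ?_
  · filter_upwards [eventually_ge_atTop 1] with n hn
    have h2 : 1 ≤ Nat.sqrt n := by rw [Nat.le_sqrt']; omega
    have h3 : (0 : ℝ) < Nat.sqrt n := by exact_mod_cast h2
    rw [one_le_div (by positivity)]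
    exact_mod_cast Nat.sqrt_le' n
  · filter_upwards [eventually_ge_atTop 1] with n hn
    have h2 : 1 ≤ Nat.sqrt n := by rw [Nat.le_sqrt']; omega
    have h3 : (0 : ℝ) < Nat.sqrt n := by exact_mod_cast h2
    have h4 : n ≤ (Nat.sqrt n) ^ 2 + 2 * Nat.sqrt n := by
      have := Nat.lt_succ_sqrt' n
      have h5 : (Nat.sqrt n).succ ^ 2 = (Nat.sqrt n) ^ 2 + 2 * Nat.sqrt n + 1 := by
        rw [Nat.succ_eq_add_one]; ring
      omega
    have h6 : (n : ℝ) ≤ (Nat.sqrt n : ℝ) ^ 2 + 2 * Nat.sqrt n := by exact_mod_cast h4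
    rw [div_le_iff₀ (by positivity)]
    calc (n : ℝ) ≤ (Nat.sqrt n : ℝ) ^ 2 + 2 * Nat.sqrt n := h6
      _ = (1 + 2 * (1 / (Nat.sqrt n : ℝ))) * (Nat.sqrt n : ℝ) ^ 2 := by field_simp

lemma ratio_log : Tendsto (fun n : ℕ => Real.log n / Real.log (Nat.sqrt n)) atTop (𝓝 2) := by
  have h1 : Tendsto (fun n : ℕ => Real.log ((n : ℝ) / (Nat.sqrt n : ℝ) ^ 2)) atTop
      (𝓝 (Real.log 1)) := (Real.continuousAt_log one_ne_zero).tendsto.comp ratio_sq
  have h2 : Tendsto (fun n : ℕ => Real.log (Nat.sqrt n)) atTop atTop :=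
    Real.tendsto_log_atTop.comp ((tendsto_natCast_atTop_atTop (R := ℝ)).comp tendsto_sqrt)
  have h3 := (h1.div_atTop h2).const_add 2
  rw [add_zero] at h3
  refine h3.congr' ?_
  filter_upwards [eventually_ge_atTop 4] with n hn
  have h4 : 2 ≤ Nat.sqrt n := by rw [Nat.le_sqrt']; omega
  have h5 : (1 : ℝ) < Nat.sqrt n := by exact_mod_cast h4
  have h6 : 0 < Real.log (Nat.sqrt n) := Real.log_pos h5
  have h7 : (n : ℝ) ≠ 0 := by
    have : 0 < n := by omega
    positivity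
  rw [Real.log_div h7 (by positivity), Real.log_pow]
  field_simp
  push_cast
  ring

lemma ratio_pow : Tendsto (fun n : ℕ => (Nat.sqrt n : ℝ) ^ 3 / (n : ℝ) ^ (3 / 2 : ℝ)) atTop
    (𝓝 1) := by
  have h1 : Tendsto (fun n : ℕ => (((n : ℝ) / (Nat.sqrt n : ℝ) ^ 2) ^ (3 / 2 : ℝ))⁻¹) atTop
      (𝓝 (((1 : ℝ) ^ (3 / 2 : ℝ))⁻¹)) := by
    apply Tendsto.inv₀
    · exact ratio_sq.rpow_const (Or.inl one_ne_zero)
    · simp
  rw [Real.one_rpow, inv_one] at h1
  refine h1.congr' ?_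
  filter_upwards [eventually_ge_atTop 1] with n hn
  have h2 : 1 ≤ Nat.sqrt n := by rw [Nat.le_sqrt']; omega
  have h3 : (0 : ℝ) < Nat.sqrt n := by exact_mod_cast h2
  have hn0 : (0 : ℝ) < n := by exact_mod_cast hn
  rw [Real.div_rpow hn0.le (by positivity), inv_div]
  congr 1
  rw [← Real.rpow_natCast, ← Real.rpow_mul h3.le, ← Real.rpow_natCast]
  norm_num

theorem result :
    (∀ n, IsLeast {k : ℕ | PacksInto n (P n) k} (m n (P n))) ∧
    Tendsto (fun n : ℕ => (m n (P n) : ℝ) * Real.log n / (n : ℝ) ^ (3 / 2 : ℝ)) atTop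
      (𝓝 (4 / 3)) := by
  refine ⟨fun n => ⟨packsInto_m n, fun k hk => Nat.sInf_le hk⟩, ?_⟩
  have hlog0 : Tendsto (fun n : ℕ => Real.log n / (n : ℝ)) atTop (𝓝 0) := by
    have h := Real.isLittleO_log_id_atTop.tendsto_div_nhds_zero.comp
      (tendsto_natCast_atTop_atTop (R := ℝ))
    exact h
  have hlogx : Tendsto (fun n : ℕ => Real.log (Nat.sqrt n) / (Nat.sqrt n : ℝ)) atTop (𝓝 0) :=
    hlog0.comp tendsto_sqrt
  have hpre := ratio_pow.mul ratio_log
  rw [one_mul] at hpre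
  apply tendsto_of_eventually
  · -- upper bound
    have key : ∀ T : ℕ, ∃ C : ℕ, 2 ≤ T → ∀ᶠ n : ℕ in atTop, (m n (P n) : ℝ) ≤
        ∑ b ∈ range T, (blk T b (Nat.sqrt n)).card *
        (n - ((b * Nat.sqrt n / T : ℕ) : ℝ) ^ 2
        + 2 * ((1 * Nat.sqrt n / (T * T) : ℕ) : ℝ) * ((b * Nat.sqrt n / T : ℕ) : ℝ))
        + C * (n : ℝ) := by
      intro T
      by_cases hT : 2 ≤ T
      · obtain ⟨C, n₀, h⟩ := upper_n hT
        exact ⟨C, fun _ => eventually_atTop.2 ⟨n₀, h⟩⟩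
      · exact ⟨0, fun h => absurd h hT⟩
    choose C hC using key
    apply eventually_le_of _ _
      (fun T n => ((Nat.sqrt n : ℝ) ^ 3 / (n : ℝ) ^ (3 / 2 : ℝ) *
        (Real.log n / Real.log (Nat.sqrt n))) *
        (∑ b ∈ range T, (((blk T b (Nat.sqrt n)).card : ℝ) * Real.log (Nat.sqrt n) / (Nat.sqrt n)) *
        ((n : ℝ) / (Nat.sqrt n : ℝ) ^ 2 - (((b * Nat.sqrt n / T : ℕ) : ℝ) / (Nat.sqrt n)) ^ 2
          + 2 * (((1 * Nat.sqrt n / (T * T) : ℕ) : ℝ) / (Nat.sqrt n)) *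
            (((b * Nat.sqrt n / T : ℕ) : ℝ) / (Nat.sqrt n)))
        + C T * ((n : ℝ) / (Nat.sqrt n : ℝ) ^ 2) * (Real.log (Nat.sqrt n) / (Nat.sqrt n))))
      (fun T => 2 * (∑ b ∈ range T, (1 / (T : ℝ)) *
        (1 - ((b : ℝ) / T) ^ 2
          + 2 * (((1 : ℕ) : ℝ) / ((T * T : ℕ) : ℝ)) * ((b : ℝ) / T)) + C T * 1 * 0))
    · intro T hT
      filter_upwards [hC T hT, eventually_ge_atTop 4] with n hn hn1
      have hn0 : (0 : ℝ) < n := by exact_mod_cast (by omega : 0 < n)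
      have hlog : 0 ≤ Real.log n := Real.log_natCast_nonneg n
      have h4 : 2 ≤ Nat.sqrt n := by rw [Nat.le_sqrt']; omega
      have h5 : (1 : ℝ) < Nat.sqrt n := by exact_mod_cast h4
      have h6 : 0 < Real.log (Nat.sqrt n) := Real.log_pos h5
      have h7 : (0 : ℝ) < (n : ℝ) ^ (3 / 2 : ℝ) := by positivity
      have h8 : (0 : ℝ) < Nat.sqrt n := by linarith
      calc (m n (P n) : ℝ) * Real.log n / (n : ℝ) ^ (3 / 2 : ℝ)
          ≤ (∑ b ∈ range T, (blk T b (Nat.sqrt n)).card *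
            (n - ((b * Nat.sqrt n / T : ℕ) : ℝ) ^ 2
            + 2 * ((1 * Nat.sqrt n / (T * T) : ℕ) : ℝ) * ((b * Nat.sqrt n / T : ℕ) : ℝ))
            + C T * (n : ℝ)) * Real.log n / (n : ℝ) ^ (3 / 2 : ℝ) := by gcongr
        _ = _ := by
            have e1 : ∀ U V : ℝ, U = (Nat.sqrt n : ℝ) ^ 3 / Real.log (Nat.sqrt n) * V →
                U * Real.log n / (n : ℝ) ^ (3 / 2 : ℝ) = ((Nat.sqrt n : ℝ) ^ 3 / (n : ℝ) ^ (3 / 2 : ℝ) *
                (Real.log n / Real.log (Nat.sqrt n))) * V := by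
              intro U V h
              rw [h]
              field_simp
            apply e1
            rw [mul_add, Finset.mul_sum]
            congr 1
            · apply Finset.sum_congr rfl
              intro b _
              field_simp
            · field_simp
    · intro T hT
      have hT1 : 1 ≤ T := by omega
      apply hpre.mul
      apply Tendsto.add
      · apply tendsto_finsetSum
        intro b _
        apply ((tendsto_blk T b hT1).comp tendsto_sqrt).mul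
        apply Tendsto.add
        · apply Tendsto.sub ratio_sq
          exact ((tendsto_div_block T b hT1).comp tendsto_sqrt).pow 2
        · exact (((tendsto_div_block (T * T) 1 (by nlinarith)).comp tendsto_sqrt).const_mul 2).mul
            ((tendsto_div_block T b hT1).comp tendsto_sqrt)
      · exact (ratio_sq.const_mul _).mul hlogx
    · refine (tendsto_poly (4 / 3) 1 (5 / 3) (-2)).congr' ?_
      filter_upwards [eventually_ge_atTop 1] with T hT
      have hT0 : (T : ℝ) ≠ 0 := by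
        have : (0 : ℝ) < T := by exact_mod_cast hT
        exact this.ne'
      have e1 : ∀ b ∈ range T, (1 / (T : ℝ)) *
          (1 - ((b : ℝ) / T) ^ 2
          + 2 * (((1 : ℕ) : ℝ) / ((T * T : ℕ) : ℝ)) * ((b : ℝ) / T))
          = (2 / (T : ℝ) ^ 4) * b + 1 / (T : ℝ)
            + (-1 / (T : ℝ) ^ 3) * (b : ℝ) ^ 2 := by
        intro b _
        push_cast
        field_simp
        ring
      rw [Finset.sum_congr rfl e1, Finset.sum_add_distrib, Finset.sum_add_distrib,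
        ← Finset.mul_sum, ← Finset.mul_sum, sum_id_range, sum_sq_range, Finset.sum_const,
        Finset.card_range, nsmul_eq_mul]
      field_simp
      ring
  · -- lower bound
    have hx1 : Tendsto (fun n : ℕ => 1 / (Nat.sqrt n : ℝ)) atTop (𝓝 0) :=
      tendsto_one_div_atTop_nhds_zero_nat.comp tendsto_sqrt
    have hmom : Tendsto (fun n : ℕ => ((Nat.sqrt n : ℝ) ^ 3 / (n : ℝ) ^ (3 / 2 : ℝ) *
        (Real.log n / Real.log (Nat.sqrt n))) *
        (((Nat.primeCounting (Nat.sqrt n) : ℝ) * Real.log (Nat.sqrt n) / (Nat.sqrt n)) *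
          ((n : ℝ) / (Nat.sqrt n : ℝ) ^ 2 - 2 * (1 / (Nat.sqrt n : ℝ)))
        - (∑ p ∈ primesTo (Nat.sqrt n), (p : ℝ) ^ 2) * Real.log (Nat.sqrt n) / (Nat.sqrt n : ℝ) ^ 3
        - ((n : ℝ) / (Nat.sqrt n : ℝ) ^ 2) * (Real.log (Nat.sqrt n) / (Nat.sqrt n)))) atTop
        (𝓝 (2 * (1 * (1 - 2 * 0) - 1 / 3 - 1 * 0))) := by
      apply hpre.mul
      apply Tendsto.sub
      · apply Tendsto.sub
        · exact (pnt.comp tendsto_sqrt).mul (ratio_sq.sub (hx1.const_mul 2))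
        · exact moment_two.comp tendsto_sqrt
      · exact ratio_sq.mul hlogx
    have e : (2 : ℝ) * (1 * (1 - 2 * 0) - 1 / 3 - 1 * 0) = 4 / 3 := by norm_num
    rw [e] at hmom
    intro ε hε
    have h1 := hmom.eventually_const_lt (show (4 : ℝ) / 3 - ε < 4 / 3 by linarith)
    filter_upwards [h1, eventually_ge_atTop 4] with n hn hn3
    have hn0 : (0 : ℝ) < n := by exact_mod_cast (by omega : 0 < n)
    have hlog : 0 ≤ Real.log n := Real.log_natCast_nonneg n
    have h4 : 2 ≤ Nat.sqrt n := by rw [Nat.le_sqrt']; omega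
    have h5 : (1 : ℝ) < Nat.sqrt n := by exact_mod_cast h4
    have h6 : 0 < Real.log (Nat.sqrt n) := Real.log_pos h5
    have h7 : (0 : ℝ) < (n : ℝ) ^ (3 / 2 : ℝ) := by positivity
    have h8 : (0 : ℝ) < Nat.sqrt n := by linarith
    have h2 := lower n hn3
    have h3 : (∑ p ∈ primesTo (Nat.sqrt n), ((n : ℝ) - 2 * (Nat.sqrt n : ℝ) - (p : ℝ) ^ 2)
        - (n : ℝ)) ≤ m n (P n) := by
      exact_mod_cast h2
    have h9 : (∑ p ∈ primesTo (Nat.sqrt n), ((n : ℝ) - 2 * (Nat.sqrt n : ℝ) - (p : ℝ) ^ 2)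
        - (n : ℝ)) * Real.log n / (n : ℝ) ^ (3 / 2 : ℝ)
        ≤ (m n (P n) : ℝ) * Real.log n / (n : ℝ) ^ (3 / 2 : ℝ) := by gcongr
    refine le_trans (le_trans hn.le (le_of_eq ?_)) h9
    rw [Finset.sum_sub_distrib, Finset.sum_const, nsmul_eq_mul]
    have e2 : (primesTo (Nat.sqrt n)).card = Nat.primeCounting (Nat.sqrt n) :=
      (primeCounting_eq _).symm
    rw [e2]
    field_simp

end Pool.Agent.Results.MP_fdcff6_co.PrimeAsymptotic
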